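import Pool.Agent.H87.LE.A01_Green
import Pool.Agent.H87.LE.A16_Chain

open MeasureTheory Complex Set Filter Topology
open scoped ContDiff Laplacian ENNReal
open Pool.Agent.H87.LE

namespace Pool.Agent.H66.LE

/-! # Tools for limits of test functions (helper66) -/

/-- `L²` limits can be paired -/
theorem t_pair {α E : Type*} [MeasurableSpace α] {μ : Measure α} [NormedAddCommGroup E]
    [InnerProductSpace ℝ E]
    {a b : ℕ → α → E} {a0 b0 : α → E} (ha : ∀ n, MemLp (a n) 2 μ) (hb : ∀ n, MemLp (b n) 2 μ)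
    (ha0 : MemLp a0 2 μ) (hb0 : MemLp b0 2 μ)
    (h : Tendsto (fun n => eLpNorm (fun z => a n z - a0 z) 2 μ) atTop (𝓝 0))
    (h' : Tendsto (fun n => eLpNorm (fun z => b n z - b0 z) 2 μ) atTop (𝓝 0)) :
    Tendsto (fun n => ∫ z, inner ℝ (a n z) (b n z) ∂μ) atTop
      (𝓝 (∫ z, inner ℝ (a0 z) (b0 z) ∂μ)) := by
  have h1 : Tendsto (fun n => (ha n).toLp (a n)) atTop (𝓝 (ha0.toLp a0)) :=
    (Lp.tendsto_Lp_iff_tendsto_eLpNorm'' a ha a0 ha0).2 h
  have h2 : Tendsto (fun n => (hb n).toLp (b n)) atTop (𝓝 (hb0.toLp b0)) :=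
    (Lp.tendsto_Lp_iff_tendsto_eLpNorm'' b hb b0 hb0).2 h'
  have h3 := h1.inner (𝕜 := ℝ) h2
  have key : ∀ (x y : α → E) (hx : MemLp x 2 μ) (hy : MemLp y 2 μ),
      inner ℝ (hx.toLp x) (hy.toLp y) = ∫ z, inner ℝ (x z) (y z) ∂μ := by
    intro x y hx hy
    rw [L2.inner_def]
    apply integral_congr_ae
    filter_upwards [hx.coeFn_toLp, hy.coeFn_toLp] with z h1 h2
    rw [h1, h2]
  simpa only [key] using h3

theorem t_tst_memLp {Ω : Set ℂ} {φ : ℂ → ℝ} (h : Tst Ω φ) (p : ℝ≥0∞) (μ : Measure ℂ)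
    [IsFiniteMeasureOnCompacts μ] : MemLp φ p μ :=
  h.1.continuous.memLp_of_hasCompactSupport h.2.1

theorem t_grad_cont {φ : ℂ → ℝ} (h : ContDiff ℝ ∞ φ) : Continuous (gradient φ) := by
  have h1 : Continuous (fderiv ℝ φ) := h.continuous_fderiv (by simp)
  exact (InnerProductSpace.toDual ℝ ℂ).symm.continuous.comp h1

theorem t_grad_off {φ : ℂ → ℝ} {z : ℂ} (hz : z ∉ tsupport φ) : gradient φ z = 0 := by
  unfold gradient
  rw [fderiv_of_notMem_tsupport ℝ hz, map_zero]

theorem t_grad_hcs {Ω : Set ℂ} {φ : ℂ → ℝ} (h : Tst Ω φ) : HasCompactSupport (gradient φ) :=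
  h.2.1.mono' fun _ hz => by_contra fun h' => hz (t_grad_off h')

theorem t_grad_memLp {Ω : Set ℂ} {φ : ℂ → ℝ} (h : Tst Ω φ) (p : ℝ≥0∞) (μ : Measure ℂ)
    [IsFiniteMeasureOnCompacts μ] : MemLp (gradient φ) p μ :=
  (t_grad_cont h.1).memLp_of_hasCompactSupport (t_grad_hcs h)

theorem t_restrict {E : Type*} [NormedAddCommGroup E] {a : ℕ → ℂ → E} {a0 : ℂ → E} (Ω : Set ℂ)
    (h : Tendsto (fun n => eLpNorm (fun z => a n z - a0 z) 2 volume) atTop (𝓝 0)) :
    Tendsto (fun n => eLpNorm (fun z => a n z - a0 z) 2 (volume.restrict Ω)) atTop (𝓝 0) :=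
  tendsto_of_tendsto_of_tendsto_of_le_of_le tendsto_const_nhds h (fun _ => zero_le)
    (fun n => eLpNorm_mono_measure _ Measure.restrict_le_self)

theorem t_lim_memLp {φ : ℕ → ℂ → ℝ} (hφ : ∀ n, Tst univ (φ n))
    {v : ℂ → ℝ} {G : ℂ → ℂ} (h : Lim φ v G) : MemLp v 2 volume ∧ MemLp G 2 volume :=
  ⟨(lim_off MeasurableSet.univ hφ h).1, (lim_off MeasurableSet.univ hφ h).2.1⟩

theorem t_tst_mono {Ω Ω' : Set ℂ} {φ : ℂ → ℝ} (h : Tst Ω φ) (hs : Ω ⊆ Ω') : Tst Ω' φ :=
  ⟨h.1, h.2.1, h.2.2.trans hs⟩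

/-- the integral against a test function is an integral over `Ω` -/
theorem t_int_grad {Ω : Set ℂ} (G : ℂ → ℂ) {ζ : ℂ → ℝ} (h : Tst Ω ζ) :
    ∫ z, inner ℝ (G z) (gradient ζ z) = ∫ z in Ω, inner ℝ (G z) (gradient ζ z) := by
  refine (setIntegral_eq_integral_of_forall_compl_eq_zero ?_).symm
  intro z hz
  rw [t_grad_off fun h' => hz (h.2.2 h'), inner_zero_right]

theorem t_int_mul {Ω : Set ℂ} (f : ℂ → ℝ) {ζ : ℂ → ℝ} (h : Tst Ω ζ) :
    ∫ z, f z * ζ z = ∫ z in Ω, f z * ζ z := by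
  refine (setIntegral_eq_integral_of_forall_compl_eq_zero ?_).symm
  intro z hz
  rw [image_eq_zero_of_notMem_tsupport fun h' => hz (h.2.2 h'), mul_zero]

/-- limits of the two sides of a weak equation -/
theorem t_lim_sides {Ω : Set ℂ} {G : ℂ → ℂ} {f : ℂ → ℝ} (hG : MemLp G 2 (volume.restrict Ω))
    (hf : MemLp f 2 (volume.restrict Ω)) {φ : ℕ → ℂ → ℝ} (hφ : ∀ n, Tst Ω (φ n))
    {v : ℂ → ℝ} {K : ℂ → ℂ} (h : Lim φ v K) :
    Tendsto (fun n => ∫ z, inner ℝ (G z) (gradient (φ n) z)) atTop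
        (𝓝 (∫ z in Ω, inner ℝ (G z) (K z))) ∧
      Tendsto (fun n => ∫ z, f z * φ n z) atTop (𝓝 (∫ z in Ω, f z * v z)) := by
  obtain ⟨hv, hK⟩ := t_lim_memLp (fun n => t_tst_mono (hφ n) (subset_univ _)) h
  constructor
  · have h1 := t_pair (μ := volume.restrict Ω) (a := fun _ => G) (b := fun n => gradient (φ n))
      (a0 := G) (b0 := K) (fun _ => hG) (fun n => t_grad_memLp (hφ n) 2 _) hG
      (hK.mono_measure Measure.restrict_le_self) (by simp) (t_restrict Ω h.2.2.2)
    refine h1.congr fun n => ?_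
    rw [t_int_grad G (hφ n)]
  · have h1 := t_pair (μ := volume.restrict Ω) (a := fun _ => f) (b := fun n => φ n)
      (a0 := f) (b0 := v) (fun _ => hf) (fun n => t_tst_memLp (hφ n) 2 _) hf
      (hv.mono_measure Measure.restrict_le_self) (by simp) (t_restrict Ω h.2.2.1)
    have e : ∀ x y : ℝ, inner ℝ x y = x * y := fun x y => by simp [mul_comm]
    simp only [e] at h1
    refine h1.congr fun n => ?_
    rw [t_int_mul f (hφ n)]

/-- the gradient is determined by the function -/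
theorem t_grad_unique {φ : ℕ → ℂ → ℝ} (hφ : ∀ n, Tst univ (φ n))
    {v : ℂ → ℝ} {G : ℂ → ℂ} (h : Lim φ v G) (hv : ∀ᵐ z, v z = 0) : ∀ᵐ z, G z = 0 := by
  obtain ⟨hv2, hG2⟩ := t_lim_memLp hφ h
  -- pairing with a fixed gradient of a test function gives zero
  have key : ∀ m, ∫ z, inner ℝ (G z) (gradient (φ m) z) = 0 := by
    intro m
    have h1 := t_pair (μ := volume) (a := fun n => gradient (φ n)) (b := fun _ => gradient (φ m))
      (a0 := G) (b0 := gradient (φ m)) (fun n => t_grad_memLp (hφ n) 2 _)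
      (fun n => t_grad_memLp (hφ m) 2 _) hG2 (t_grad_memLp (hφ m) 2 _) h.2.2.2 (by simp)
    have hΔ : Continuous (Δ (φ m)) := by
      have : Δ (φ m) = fun z => iteratedFDeriv ℝ 2 (φ m) z ![1, 1] + iteratedFDeriv ℝ 2 (φ m) z ![I, I] := by
        rw [InnerProductSpace.laplacian_eq_iteratedFDeriv_complexPlane]
      rw [this]
      have h2 : Continuous (iteratedFDeriv ℝ 2 (φ m)) := (hφ m).1.continuous_iteratedFDeriv (by norm_cast)
      fun_prop
    have hΔc : HasCompactSupport (Δ (φ m)) := by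
      refine (hφ m).2.1.mono' fun z hz => by_contra fun h' => hz ?_
      have : iteratedFDeriv ℝ 2 (φ m) z = 0 := by
        have := support_iteratedFDeriv_subset (𝕜 := ℝ) (f := φ m) 2
        by_contra h3
        exact h' (this h3)
      rw [InnerProductSpace.laplacian_eq_iteratedFDeriv_complexPlane]
      simp [this]
    have hΔL : MemLp (Δ (φ m)) 2 volume := hΔ.memLp_of_hasCompactSupport hΔc
    have h2 := t_pair (μ := volume) (a := fun n => φ n) (b := fun _ => Δ (φ m))
      (a0 := v) (b0 := Δ (φ m)) (fun n => t_tst_memLp (hφ n) 2 _)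
      (fun _ => hΔL) hv2 hΔL h.2.2.1 (by simp)
    have e : ∀ x y : ℝ, inner ℝ x y = y * x := fun x y => by simp
    simp only [e] at h2
    have h3 : ∀ n, ∫ z, inner ℝ (gradient (φ n) z) (gradient (φ m) z) = - ∫ z, Δ (φ m) z * φ n z := by
      intro n
      rw [← (green isOpen_univ (((hφ m).1.of_le (by norm_cast)).contDiffOn (n := 2)) (hφ n)).2.2]
      simp_rw [real_inner_comm]
    have h4 : Tendsto (fun n => ∫ z, inner ℝ (gradient (φ n) z) (gradient (φ m) z)) atTop
        (𝓝 (- ∫ z, Δ (φ m) z * v z)) := by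
      simp_rw [h3]
      exact h2.neg
    have h5 : ∫ z, Δ (φ m) z * v z = 0 := by
      rw [integral_eq_zero_of_ae]
      filter_upwards [hv] with z hz
      simp [hz]
    rw [h5, neg_zero] at h4
    exact tendsto_nhds_unique h1 h4
  have h1 := t_pair (μ := volume) (a := fun n => G) (b := fun n => gradient (φ n))
      (a0 := G) (b0 := G) (fun n => hG2) (fun n => t_grad_memLp (hφ n) 2 _)
      hG2 hG2 (by simp) h.2.2.2
  simp only [key] at h1
  have h2 : ∫ z, inner ℝ (G z) (G z) = 0 := (tendsto_nhds_unique tendsto_const_nhds h1).symm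
  simp only [real_inner_self_eq_norm_sq] at h2
  have h3 : Integrable (fun z => ‖G z‖ ^ 2) := hG2.integrable_norm_pow (by norm_num)
  rw [integral_eq_zero_iff_of_nonneg (fun z => by positivity) h3] at h2
  filter_upwards [h2] with z hz
  simpa using hz

theorem t_diff {Ω : Set ℂ} {φ : ℂ → ℝ} (h : Tst Ω φ) (z : ℂ) : DifferentiableAt ℝ φ z :=
  h.1.contDiffAt.differentiableAt (by simp)

theorem t_grad_sub {f g : ℂ → ℝ} {z : ℂ} (hf : DifferentiableAt ℝ f z)
    (hg : DifferentiableAt ℝ g z) :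
    gradient (fun z => f z - g z) z = gradient f z - gradient g z := by
  unfold gradient
  rw [fderiv_fun_sub hf hg, map_sub]

theorem t_tst_sub {Ω : Set ℂ} {f g : ℂ → ℝ} (hf : Tst Ω f) (hg : Tst Ω g) :
    Tst Ω (fun z => f z - g z) := by
  refine ⟨hf.1.sub hg.1, hf.2.1.sub hg.2.1, ?_⟩
  refine (tsupport_sub f g).trans (union_subset hf.2.2 hg.2.2)

theorem t_lim_congr {φ : ℕ → ℂ → ℝ} {v v' : ℂ → ℝ} {G G' : ℂ → ℂ} (h : Lim φ v G)
    (hv : v =ᵐ[volume] v') (hG : G =ᵐ[volume] G') : Lim φ v' G' := by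
  refine ⟨h.1.congr hv, h.2.1.congr hG, ?_, ?_⟩
  · refine h.2.2.1.congr fun n => eLpNorm_congr_ae ?_
    filter_upwards [hv] with z hz
    rw [hz]
  · refine h.2.2.2.congr fun n => eLpNorm_congr_ae ?_
    filter_upwards [hG] with z hz
    rw [hz]

theorem t_lim_sub {Ω : Set ℂ} {φ φ' : ℕ → ℂ → ℝ} (hφ : ∀ n, Tst Ω (φ n))
    (hφ' : ∀ n, Tst Ω (φ' n)) {v v' : ℂ → ℝ} {G G' : ℂ → ℂ} (h : Lim φ v G)
    (h' : Lim φ' v' G') : Lim (fun n z => φ n z - φ' n z) (fun z => v z - v' z)
      (fun z => G z - G' z) := by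
  refine ⟨h.1.sub h'.1, h.2.1.sub h'.2.1, ?_, ?_⟩
  · have h3 := h.2.2.1.add h'.2.2.1
    rw [add_zero] at h3
    refine tendsto_of_tendsto_of_tendsto_of_le_of_le tendsto_const_nhds h3 (fun _ => zero_le)
      fun n => ?_
    have e : (fun z => φ n z - φ' n z - (v z - v' z)) =
      (fun z => φ n z - v z) - fun z => φ' n z - v' z := by
      funext z; simp only [Pi.sub_apply]; ring
    simp only
    rw [e]
    refine eLpNorm_sub_le ?_ ?_ (by norm_num)
    · exact (hφ n).1.continuous.aestronglyMeasurable.sub h.1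
    · exact (hφ' n).1.continuous.aestronglyMeasurable.sub h'.1
  · have h3 := h.2.2.2.add h'.2.2.2
    rw [add_zero] at h3
    refine tendsto_of_tendsto_of_tendsto_of_le_of_le tendsto_const_nhds h3 (fun _ => zero_le)
      fun n => ?_
    have e : (fun z => gradient (fun z => φ n z - φ' n z) z - (G z - G' z)) =
      (fun z => gradient (φ n) z - G z) - fun z => gradient (φ' n) z - G' z := by
      funext z
      rw [t_grad_sub (t_diff (hφ n) z) (t_diff (hφ' n) z)]
      simp only [Pi.sub_apply]; abel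
    simp only
    rw [e]
    refine eLpNorm_sub_le ?_ ?_ (by norm_num)
    · exact (t_grad_cont (hφ n).1).aestronglyMeasurable.sub h.2.1
    · exact (t_grad_cont (hφ' n).1).aestronglyMeasurable.sub h'.2.1

/-- two limits with the same function have the same gradient -/
theorem t_grad_eq {φ φ' : ℕ → ℂ → ℝ} (hφ : ∀ n, Tst univ (φ n))
    (hφ' : ∀ n, Tst univ (φ' n)) {v v' : ℂ → ℝ} {G G' : ℂ → ℂ} (h : Lim φ v G)
    (h' : Lim φ' v' G') (hv : v =ᵐ[volume] v') : G =ᵐ[volume] G' := by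
  have h1 := t_grad_unique (fun n => t_tst_sub (hφ n) (hφ' n)) (t_lim_sub hφ hφ' h h') (by
    filter_upwards [hv] with z hz
    rw [hz, sub_self])
  filter_upwards [h1] with z hz
  exact sub_eq_zero.1 hz

theorem t_tst_zero (Ω : Set ℂ) : Tst Ω (fun _ => (0 : ℝ)) := by
  refine ⟨contDiff_const, HasCompactSupport.zero, ?_⟩
  simp [tsupport, Function.support]

theorem t_grad_zero (z : ℂ) : gradient (fun _ : ℂ => (0 : ℝ)) z = 0 := by
  unfold gradient
  simp

theorem t_grad_const (c : ℝ) (z : ℂ) : gradient (fun _ : ℂ => (c : ℝ)) z = 0 := by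
  unfold gradient
  simp

theorem t_lim_zero : Lim (fun _ _ => 0) (fun _ => 0) (fun _ => 0) := by
  refine ⟨aestronglyMeasurable_const, aestronglyMeasurable_const, ?_, ?_⟩
  · simp
  · simp [t_grad_zero]

/-- limits of the squares -/
theorem t_lim_sq {φ : ℕ → ℂ → ℝ} (hφ : ∀ n, Tst univ (φ n))
    {v : ℂ → ℝ} {G : ℂ → ℂ} (h : Lim φ v G) :
    Tendsto (fun n => ∫ z, φ n z ^ 2) atTop (𝓝 (∫ z, v z ^ 2)) ∧
      Tendsto (fun n => ∫ z, ‖gradient (φ n) z‖ ^ 2) atTop (𝓝 (∫ z, ‖G z‖ ^ 2)) := by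
  obtain ⟨hv, hG⟩ := t_lim_memLp hφ h
  constructor
  · have h1 := t_pair (μ := volume) (a := φ) (b := φ) (a0 := v) (b0 := v)
      (fun n => t_tst_memLp (hφ n) 2 _) (fun n => t_tst_memLp (hφ n) 2 _) hv hv
      h.2.2.1 h.2.2.1
    have e : ∀ x : ℝ, inner ℝ x x = x ^ 2 := fun x => by rw [real_inner_self_eq_norm_sq, Real.norm_eq_abs, sq_abs]
    simpa only [e] using h1
  · have h1 := t_pair (μ := volume) (a := fun n => gradient (φ n)) (b := fun n => gradient (φ n))
      (a0 := G) (b0 := G)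
      (fun n => t_grad_memLp (hφ n) 2 _) (fun n => t_grad_memLp (hφ n) 2 _) hG hG
      h.2.2.2 h.2.2.2
    simpa only [real_inner_self_eq_norm_sq] using h1

/-- `L²` convergence gives convergence almost everywhere of a subsequence -/
theorem t_subseq {a : ℕ → ℂ → ℝ} {a0 : ℂ → ℝ} (ha : ∀ n, AEStronglyMeasurable (a n) volume)
    (ha0 : AEStronglyMeasurable a0 volume)
    (h : Tendsto (fun n => eLpNorm (fun z => a n z - a0 z) 2 volume) atTop (𝓝 0)) :
    ∃ ns : ℕ → ℕ, StrictMono ns ∧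
      ∀ᵐ z, Tendsto (fun n => a (ns n) z) atTop (𝓝 (a0 z)) :=
  (tendstoInMeasure_of_tendsto_eLpNorm (by norm_num) ha ha0 h).exists_seq_tendsto_ae


/-! ### composition with a linear isometry -/

theorem t_grad_comp (L : ℂ ≃ₗᵢ[ℝ] ℂ) (φ : ℂ → ℝ) (z : ℂ) :
    gradient (fun z => φ (L z)) z = L.symm (gradient φ (L z)) := by
  have h1 : fderiv ℝ (fun z => φ (L z)) z =
      (fderiv ℝ φ (L z)).comp (L.toContinuousLinearEquiv : ℂ →L[ℝ] ℂ) :=
    L.toContinuousLinearEquiv.comp_right_fderiv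
  apply ext_inner_right ℝ
  intro w
  rw [inner_gradient_left, h1]
  have h2 : inner ℝ (L.symm (gradient φ (L z))) w = inner ℝ (gradient φ (L z)) (L w) := by
    rw [← L.inner_map_map, L.apply_symm_apply]
  rw [h2, inner_gradient_left]
  rfl

theorem t_tst_comp {Ω : Set ℂ} (L : ℂ ≃ₗᵢ[ℝ] ℂ) (hL : ∀ z, L z ∈ Ω → z ∈ Ω) {φ : ℂ → ℝ}
    (h : Tst Ω φ) : Tst Ω (fun z => φ (L z)) := by
  refine ⟨h.1.comp L.contDiff, h.2.1.comp_homeomorph L.toHomeomorph, ?_⟩
  intro z hz
  have h1 : tsupport (fun z => φ (L z)) ⊆ L ⁻¹' (tsupport φ) := by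
    refine closure_minimal ?_ ((isClosed_tsupport φ).preimage L.continuous)
    intro w hw
    exact subset_tsupport _ hw
  exact hL z (h.2.2 (h1 hz))

theorem t_lim_comp {Ω : Set ℂ} (L : ℂ ≃ₗᵢ[ℝ] ℂ) {φ : ℕ → ℂ → ℝ} (hφ : ∀ n, Tst Ω (φ n))
    {v : ℂ → ℝ} {G : ℂ → ℂ} (h : Lim φ v G) :
    Lim (fun n z => φ n (L z)) (fun z => v (L z)) (fun z => L.symm (G (L z))) := by
  have hm := L.measurePreserving
  refine ⟨h.1.comp_measurePreserving hm, ?_, ?_, ?_⟩
  · exact L.symm.continuous.comp_aestronglyMeasurable (h.2.1.comp_measurePreserving hm)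
  · refine h.2.2.1.congr fun n => ?_
    exact (eLpNorm_comp_measurePreserving (p := 2) ((hφ n).1.continuous.aestronglyMeasurable.sub h.1)
      hm).symm
  · refine h.2.2.2.congr fun n => ?_
    have e1 := eLpNorm_comp_measurePreserving (p := 2)
      ((t_grad_cont (hφ n).1).aestronglyMeasurable.sub h.2.1) hm
    refine (e1.symm.trans ?_ : eLpNorm (gradient (φ n) - G) 2 volume = _)
    apply eLpNorm_congr_norm_ae
    refine Eventually.of_forall fun z => ?_
    rw [t_grad_comp, ← map_sub, L.symm.norm_map]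
    rfl

theorem t_lim_smul {Ω : Set ℂ} {φ : ℕ → ℂ → ℝ} (hφ : ∀ n, Tst Ω (φ n))
    {v : ℂ → ℝ} {G : ℂ → ℂ} (h : Lim φ v G) (c : ℝ) :
    Lim (fun n z => c * φ n z) (fun z => c * v z) (fun z => c • G z) := by
  refine ⟨h.1.const_mul c, h.2.1.const_smul c, ?_, ?_⟩
  · have h1 : Tendsto (fun n => ‖c‖ₑ * eLpNorm (fun z => φ n z - v z) 2 volume) atTop
        (𝓝 (‖c‖ₑ * 0)) := ENNReal.Tendsto.const_mul h.2.2.1 (Or.inr enorm_ne_top)
    rw [mul_zero] at h1
    refine h1.congr fun n => ?_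
    rw [← eLpNorm_const_smul]
    apply eLpNorm_congr_ae
    refine Eventually.of_forall fun z => ?_
    simp only [Pi.smul_apply, smul_eq_mul]
    ring
  · have h1 : Tendsto (fun n => ‖c‖ₑ * eLpNorm (fun z => gradient (φ n) z - G z) 2 volume) atTop
        (𝓝 (‖c‖ₑ * 0)) := ENNReal.Tendsto.const_mul h.2.2.2 (Or.inr enorm_ne_top)
    rw [mul_zero] at h1
    refine h1.congr fun n => ?_
    rw [← eLpNorm_const_smul]
    apply eLpNorm_congr_ae
    refine Eventually.of_forall fun z => ?_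
    have e : gradient (fun z => c * φ n z) z = c • gradient (φ n) z := by
      unfold gradient
      rw [fderiv_const_mul (t_diff (hφ n) z), map_smul]
    simp only [Pi.smul_apply]
    rw [e, smul_sub]

theorem t_lim_add {Ω : Set ℂ} {φ φ' : ℕ → ℂ → ℝ} (hφ : ∀ n, Tst Ω (φ n))
    (hφ' : ∀ n, Tst Ω (φ' n)) {v v' : ℂ → ℝ} {G G' : ℂ → ℂ} (h : Lim φ v G)
    (h' : Lim φ' v' G') : Lim (fun n z => φ n z + φ' n z) (fun z => v z + v' z)
      (fun z => G z + G' z) := by
  refine ⟨h.1.add h'.1, h.2.1.add h'.2.1, ?_, ?_⟩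
  · have h3 := h.2.2.1.add h'.2.2.1
    rw [add_zero] at h3
    refine tendsto_of_tendsto_of_tendsto_of_le_of_le tendsto_const_nhds h3 (fun _ => zero_le)
      fun n => ?_
    have e : (fun z => φ n z + φ' n z - (v z + v' z)) =
      (fun z => φ n z - v z) + fun z => φ' n z - v' z := by
      funext z; simp only [Pi.add_apply]; ring
    simp only
    rw [e]
    refine eLpNorm_add_le ?_ ?_ (by norm_num)
    · exact (hφ n).1.continuous.aestronglyMeasurable.sub h.1
    · exact (hφ' n).1.continuous.aestronglyMeasurable.sub h'.1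
  · have h3 := h.2.2.2.add h'.2.2.2
    rw [add_zero] at h3
    refine tendsto_of_tendsto_of_tendsto_of_le_of_le tendsto_const_nhds h3 (fun _ => zero_le)
      fun n => ?_
    have e : (fun z => gradient (fun z => φ n z + φ' n z) z - (G z + G' z)) =
      (fun z => gradient (φ n) z - G z) + fun z => gradient (φ' n) z - G' z := by
      funext z
      have e2 : gradient (fun z => φ n z + φ' n z) z = gradient (φ n) z + gradient (φ' n) z := by
        unfold gradient
        rw [fderiv_fun_add (t_diff (hφ n) z) (t_diff (hφ' n) z), map_add]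
      rw [e2]
      simp only [Pi.add_apply]; abel
    simp only
    rw [e]
    refine eLpNorm_add_le ?_ ?_ (by norm_num)
    · exact (t_grad_cont (hφ n).1).aestronglyMeasurable.sub h.2.1
    · exact (t_grad_cont (hφ' n).1).aestronglyMeasurable.sub h'.2.1

theorem t_tst_smul {Ω : Set ℂ} {f : ℂ → ℝ} (hf : Tst Ω f) (c : ℝ) :
    Tst Ω (fun z => c * f z) := by
  refine ⟨contDiff_const.mul hf.1, hf.2.1.mul_left, ?_⟩
  exact (tsupport_mul_subset_right (f := fun _ => c) (g := f)).trans hf.2.2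

theorem t_tst_add {Ω : Set ℂ} {f g : ℂ → ℝ} (hf : Tst Ω f) (hg : Tst Ω g) :
    Tst Ω (fun z => f z + g z) := by
  refine ⟨hf.1.add hg.1, hf.2.1.add hg.2.1, ?_⟩
  refine (tsupport_add f g).trans (union_subset hf.2.2 hg.2.2)



/-! ### smooth odd truncations -/

/-- dominated convergence in `L²` (as in helper27's A16) -/
theorem t_dom {E : Type*} [NormedAddCommGroup E] {f : ℕ → ℂ → E} {b : ℂ → ℝ}
    (hf : ∀ n, AEStronglyMeasurable (f n) volume)
    (hb : MemLp b 2 volume) (hle : ∀ n, ∀ᵐ z, ‖f n z‖ ≤ b z)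
    (hlim : ∀ᵐ z, Tendsto (fun n => f n z) atTop (𝓝 0)) :
    Tendsto (fun n => eLpNorm (f n) 2 volume) atTop (𝓝 0) := by
  have key : Tendsto (fun n => ∫⁻ z, ‖f n z‖ₑ ^ (2:ℝ)) atTop (𝓝 0) := by
    have := tendsto_lintegral_of_dominated_convergence' (μ := (volume : Measure ℂ))
      (F := fun n z => ‖f n z‖ₑ ^ (2:ℝ)) (f := fun _ => 0) (fun z => ‖b z‖ₑ ^ (2:ℝ))
      (fun n => ((hf n).enorm).pow_const _) (fun n => by
        filter_upwards [hle n] with z hz
        gcongr
        rw [enorm_le_iff_norm_le]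
        exact hz.trans (le_abs_self _)) (by
        have := lintegral_rpow_enorm_lt_top_of_eLpNorm_lt_top (by norm_num) (by norm_num) hb.2
        simpa using this.ne) (by
        filter_upwards [hlim] with z hz
        have h1 : Tendsto (fun n => ‖f n z‖ₑ) atTop (𝓝 0) := by
          have := hz.enorm
          simpa using this
        have h2 := (ENNReal.continuous_rpow_const (y := 2)).tendsto (0 : ENNReal)
        have h3 := h2.comp h1
        simpa [Function.comp_def] using h3)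
    simpa using this
  have h3 : ∀ n, eLpNorm (f n) 2 volume = (∫⁻ z, ‖f n z‖ₑ ^ (2:ℝ)) ^ ((1:ℝ) / 2) := by
    intro n
    rw [eLpNorm_eq_lintegral_rpow_enorm_toReal (by norm_num) (by norm_num)]
    simp
  simp_rw [h3]
  have h4 := (ENNReal.continuous_rpow_const (y := (1:ℝ) / 2)).tendsto (0 : ENNReal)
  have h5 := h4.comp key
  simpa [Function.comp_def] using h5

/-- smooth odd truncation: zero near `0`, identity for `|s| ≥ 2/(k+1)` -/
noncomputable def trc (k : ℕ) (s : ℝ) : ℝ := s * Real.smoothTransition (((k : ℝ) + 1) ^ 2 * s ^ 2 - 1)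

theorem trc_odd (k : ℕ) (s : ℝ) : trc k (-s) = - trc k s := by
  unfold trc
  rw [neg_sq]
  ring

theorem trc_smooth (k : ℕ) : ContDiff ℝ ∞ (trc k) := by
  unfold trc
  refine contDiff_id.mul (Real.smoothTransition.contDiff.comp ?_)
  fun_prop

theorem trc_eq_zero {k : ℕ} {s : ℝ} (h : ((k : ℝ) + 1) ^ 2 * s ^ 2 ≤ 1) : trc k s = 0 := by
  unfold trc
  rw [Real.smoothTransition.zero_of_nonpos (by linarith), mul_zero]

theorem trc_eq_self {k : ℕ} {s : ℝ} (h : 2 ≤ ((k : ℝ) + 1) ^ 2 * s ^ 2) : trc k s = s := by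
  unfold trc
  rw [Real.smoothTransition.one_of_one_le (by linarith), mul_one]

theorem trc_le (k : ℕ) (s : ℝ) : |trc k s - s| ≤ |s| := by
  unfold trc
  have h1 := Real.smoothTransition.nonneg (((k : ℝ) + 1) ^ 2 * s ^ 2 - 1)
  have h2 := Real.smoothTransition.le_one (((k : ℝ) + 1) ^ 2 * s ^ 2 - 1)
  have e : s * Real.smoothTransition (((k : ℝ) + 1) ^ 2 * s ^ 2 - 1) - s =
    s * (Real.smoothTransition (((k : ℝ) + 1) ^ 2 * s ^ 2 - 1) - 1) := by ring
  rw [e, abs_mul]
  have h3 : |Real.smoothTransition (((k : ℝ) + 1) ^ 2 * s ^ 2 - 1) - 1| ≤ 1 := by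
    rw [abs_le]; constructor <;> linarith
  calc |s| * _ ≤ |s| * 1 := mul_le_mul_of_nonneg_left h3 (abs_nonneg _)
    _ = |s| := mul_one _

theorem trc_large (s : ℝ) (hs : s ≠ 0) : ∀ᶠ k : ℕ in atTop, 2 < ((k : ℝ) + 1) ^ 2 * s ^ 2 := by
  have h1 : Tendsto (fun k : ℕ => ((k : ℝ) + 1) ^ 2 * s ^ 2) atTop atTop := by
    refine Tendsto.atTop_mul_const (by positivity) ?_
    exact (tendsto_pow_atTop two_ne_zero).comp
      (tendsto_atTop_add_const_right _ _ tendsto_natCast_atTop_atTop)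
  exact h1.eventually_gt_atTop 2

theorem trc_tendsto (s : ℝ) : Tendsto (fun k => trc k s - s) atTop (𝓝 0) := by
  by_cases hs : s = 0
  · subst hs
    simp [trc]
  · refine tendsto_const_nhds.congr' ?_
    filter_upwards [trc_large s hs] with k hk
    rw [trc_eq_self hk.le, sub_self]

theorem trc_deriv_self {k : ℕ} {s : ℝ} (h : 2 < ((k : ℝ) + 1) ^ 2 * s ^ 2) :
    deriv (trc k) s = 1 := by
  have hc : Continuous fun s : ℝ => ((k : ℝ) + 1) ^ 2 * s ^ 2 := by fun_prop
  have h1 : trc k =ᶠ[𝓝 s] id := by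
    filter_upwards [hc.continuousAt.eventually (lt_mem_nhds h)] with t ht
    exact trc_eq_self (le_of_lt ht)
  rw [h1.deriv_eq, deriv_id]

theorem trc_deriv_zero {k : ℕ} {s : ℝ} (h : ((k : ℝ) + 1) ^ 2 * s ^ 2 < 1) :
    deriv (trc k) s = 0 := by
  have hc : Continuous fun s : ℝ => ((k : ℝ) + 1) ^ 2 * s ^ 2 := by fun_prop
  have h1 : trc k =ᶠ[𝓝 s] fun _ => 0 := by
    filter_upwards [hc.continuousAt.eventually (gt_mem_nhds h)] with t ht
    exact trc_eq_zero (le_of_lt ht)
  rw [h1.deriv_eq, deriv_const]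

theorem trc_deriv_bound : ∃ C : ℝ, 0 ≤ C ∧ ∀ k s, |deriv (trc k) s| ≤ C := by
  have hsm : ContDiff ℝ ∞ Real.smoothTransition := Real.smoothTransition.contDiff
  have hdc : Continuous (deriv Real.smoothTransition) := hsm.continuous_deriv (by simp)
  obtain ⟨M, hM⟩ := (isCompact_Icc (a := (0 : ℝ)) (b := 1)).exists_bound_of_continuousOn
    hdc.continuousOn
  have hM0 : 0 ≤ M := (norm_nonneg _).trans (hM 0 (by simp))
  refine ⟨1 + 4 * M, by positivity, fun k s => ?_⟩
  by_cases h1 : ((k : ℝ) + 1) ^ 2 * s ^ 2 < 1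
  · rw [trc_deriv_zero h1, abs_zero]; positivity
  by_cases h2 : 2 < ((k : ℝ) + 1) ^ 2 * s ^ 2
  · rw [trc_deriv_self h2, abs_one]; linarith
  push Not at h1 h2
  set y : ℝ := ((k : ℝ) + 1) ^ 2 * s ^ 2 with hy
  have hd : HasDerivAt (trc k) (1 * Real.smoothTransition (y - 1) +
      s * (deriv Real.smoothTransition (y - 1) * (((k : ℝ) + 1) ^ 2 * (2 * s)))) s := by
    have h3 : HasDerivAt (fun s : ℝ => ((k : ℝ) + 1) ^ 2 * s ^ 2 - 1)
        (((k : ℝ) + 1) ^ 2 * (2 * s)) s := by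
      have := (((hasDerivAt_id' s).pow 2).const_mul (((k : ℝ) + 1) ^ 2)).sub_const 1
      simpa using this
    have h4 : HasDerivAt Real.smoothTransition (deriv Real.smoothTransition (y - 1)) (y - 1) :=
      (hsm.contDiffAt.differentiableAt (by simp)).hasDerivAt
    have h9 : HasDerivAt (fun s : ℝ => Real.smoothTransition (((k : ℝ) + 1) ^ 2 * s ^ 2 - 1))
        (deriv Real.smoothTransition (y - 1) * (((k : ℝ) + 1) ^ 2 * (2 * s))) s :=
      HasDerivAt.comp_of_eq (h₂ := Real.smoothTransition)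
        (h := fun s : ℝ => ((k : ℝ) + 1) ^ 2 * s ^ 2 - 1) s h4 h3 rfl
    exact (hasDerivAt_id' s).mul h9
  rw [hd.deriv]
  have h5 : s * (deriv Real.smoothTransition (y - 1) * (((k : ℝ) + 1) ^ 2 * (2 * s))) =
      2 * y * deriv Real.smoothTransition (y - 1) := by rw [hy]; ring
  rw [h5]
  have h6 := hM (y - 1) ⟨by linarith, by linarith⟩
  rw [Real.norm_eq_abs] at h6
  have h7 := Real.smoothTransition.nonneg (y - 1)
  have h8 := Real.smoothTransition.le_one (y - 1)
  calc |1 * Real.smoothTransition (y - 1) + 2 * y * deriv Real.smoothTransition (y - 1)|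
      ≤ |1 * Real.smoothTransition (y - 1)| + |2 * y * deriv Real.smoothTransition (y - 1)| :=
        abs_add_le _ _
    _ = Real.smoothTransition (y - 1) + 2 * y * |deriv Real.smoothTransition (y - 1)| := by
        rw [one_mul, abs_of_nonneg h7, abs_mul, abs_of_nonneg (by linarith : (0 : ℝ) ≤ 2 * y)]
    _ ≤ 1 + 4 * M := by nlinarith [abs_nonneg (deriv Real.smoothTransition (y - 1))]

theorem t_grad_chain {F : ℝ → ℝ} {f : ℂ → ℝ} {z : ℂ} (hF : DifferentiableAt ℝ F (f z))
    (hf : DifferentiableAt ℝ f z) :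
    gradient (fun z => F (f z)) z = deriv F (f z) • gradient f z := by
  have h := hF.hasDerivAt.comp_hasFDerivAt z hf.hasFDerivAt
  unfold gradient
  have : fderiv ℝ (fun z => F (f z)) z = deriv F (f z) • fderiv ℝ f z := h.fderiv
  rw [this, map_smul]

/-- a test function is the limit of its truncations -/
theorem t_trunc {ψ : ℂ → ℝ} (h : Tst univ ψ) :
    Lim (fun k z => trc k (ψ z)) ψ (gradient ψ) := by
  obtain ⟨C, hC0, hC⟩ := trc_deriv_bound
  have hd : ∀ k z, gradient (fun z => trc k (ψ z)) z = deriv (trc k) (ψ z) • gradient ψ z := by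
    intro k z
    exact t_grad_chain ((trc_smooth k).contDiffAt.differentiableAt (by simp)) (t_diff h z)
  have htst : ∀ k, Tst univ (fun z => trc k (ψ z)) := by
    intro k
    refine ⟨(trc_smooth k).comp h.1, ?_, subset_univ _⟩
    exact h.2.1.comp_left (g := trc k) (by simp [trc])
  have hdc : ∀ k, Continuous (deriv (trc k)) := fun k => (trc_smooth k).continuous_deriv (by simp)
  have hind : MeasurableSet {z | ψ z ≠ 0} := by
    have : {z | ψ z ≠ 0} = ψ ⁻¹' {0}ᶜ := rfl
    rw [this]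
    exact h.1.continuous.measurable (measurableSet_singleton 0).compl
  have hG : AEStronglyMeasurable (indicator {z | ψ z ≠ 0} (gradient ψ)) volume :=
    (t_grad_cont h.1).aestronglyMeasurable.indicator hind
  have h1 : Lim (fun k z => trc k (ψ z)) ψ (indicator {z | ψ z ≠ 0} (gradient ψ)) := by
    refine ⟨h.1.continuous.aestronglyMeasurable, hG, ?_, ?_⟩
    · refine t_dom (b := fun z => ‖ψ z‖) (fun n => ?_) (t_tst_memLp h 2 _).norm
        (fun n => Eventually.of_forall fun z => ?_) (Eventually.of_forall fun z => ?_)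
      · exact (((trc_smooth n).continuous.comp h.1.continuous).sub
          h.1.continuous).aestronglyMeasurable
      · exact trc_le n (ψ z)
      · exact trc_tendsto (ψ z)
    · refine t_dom (b := fun z => (C + 1) * ‖gradient ψ z‖) (fun n => ?_)
        ((t_grad_memLp h 2 _).norm.const_mul _)
        (fun n => Eventually.of_forall fun z => ?_) (Eventually.of_forall fun z => ?_)
      · exact (t_grad_cont (htst n).1).aestronglyMeasurable.sub hG
      · rw [hd]
        by_cases hz : ψ z ≠ 0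
        · rw [indicator_of_mem (by exact hz)]
          calc ‖deriv (trc n) (ψ z) • gradient ψ z - gradient ψ z‖
              ≤ ‖deriv (trc n) (ψ z) • gradient ψ z‖ + ‖gradient ψ z‖ := norm_sub_le _ _
            _ ≤ C * ‖gradient ψ z‖ + ‖gradient ψ z‖ := by
                rw [norm_smul, Real.norm_eq_abs]
                gcongr
                exact hC n _
            _ = (C + 1) * ‖gradient ψ z‖ := by ring
        · rw [indicator_of_notMem (by exact hz), sub_zero, norm_smul, Real.norm_eq_abs]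
          have := hC n (ψ z)
          nlinarith [norm_nonneg (gradient ψ z)]
      · by_cases hz : ψ z ≠ 0
        · refine tendsto_const_nhds.congr' ?_
          filter_upwards [trc_large _ hz] with k hk
          rw [hd, trc_deriv_self hk, indicator_of_mem (by exact hz), one_smul, sub_self]
        · refine tendsto_const_nhds.congr' (Eventually.of_forall fun k => ?_)
          simp only
          rw [hd, indicator_of_notMem (by exact hz)]
          push Not at hz
          rw [hz, trc_deriv_zero (by norm_num), zero_smul, sub_zero]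
  have h2 : Lim (fun _ => ψ) ψ (gradient ψ) :=
    ⟨h.1.continuous.aestronglyMeasurable, (t_grad_cont h.1).aestronglyMeasurable, by simp, by simp⟩
  have h3 := t_grad_eq htst (fun _ => h) h1 h2 (EventuallyEq.refl _ _)
  exact t_lim_congr h1 (EventuallyEq.refl _ _) h3


end Pool.Agent.H66.LE
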