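import Pool.Agent.H87.LE.A01_Green

open MeasureTheory Complex Set Filter Topology
open scoped ContDiff Laplacian

namespace Pool.Agent.H87.LE

/-! # A15, first part: weak equations of the explicit functions (helper66) -/

/-- gradient of a product `a(x) b(y)` as a derivative -/
theorem a15_hasFDerivAt_prod {a b a1 b1 : ℝ → ℝ} (ha : ∀ x, HasDerivAt a (a1 x) x)
    (hb : ∀ x, HasDerivAt b (b1 x) x) (z : ℂ) :
    HasFDerivAt (fun z : ℂ => a z.re * b z.im)
      ((a1 z.re * b z.im) • reCLM + (a z.re * b1 z.im) • imCLM) z := by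
  have h1 : HasFDerivAt (fun z : ℂ => a z.re) (a1 z.re • reCLM) z :=
    (ha z.re).comp_hasFDerivAt z (reCLM.hasFDerivAt (x := z))
  have h2 : HasFDerivAt (fun z : ℂ => b z.im) (b1 z.im • imCLM) z :=
    (hb z.im).comp_hasFDerivAt z (imCLM.hasFDerivAt (x := z))
  refine (h1.mul h2).congr_fderiv ?_
  ext w
  simp
  ring

theorem a15_laplacian_prod {a b a1 b1 a2 b2 : ℝ → ℝ} (ha : ∀ x, HasDerivAt a (a1 x) x)
    (hb : ∀ x, HasDerivAt b (b1 x) x) (ha1 : ∀ x, HasDerivAt a1 (a2 x) x)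
    (hb1 : ∀ x, HasDerivAt b1 (b2 x) x) (z : ℂ) :
    Δ (fun z : ℂ => a z.re * b z.im) z = a2 z.re * b z.im + a z.re * b2 z.im := by
  rw [InnerProductSpace.laplacian_eq_iteratedFDeriv_complexPlane]
  simp only [iteratedFDeriv_two_apply]
  have e : fderiv ℝ (fun z : ℂ => a z.re * b z.im) =
      fun z => (a1 z.re * b z.im) • reCLM + (a z.re * b1 z.im) • imCLM := by
    funext z; exact (a15_hasFDerivAt_prod ha hb z).fderiv
  rw [e]
  have h1 := (a15_hasFDerivAt_prod ha1 hb z).smul_const reCLM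
  have h2 := (a15_hasFDerivAt_prod ha hb1 z).smul_const imCLM
  rw [(h1.fun_add h2).fderiv]
  simp

/-- `sin (c x)` and its derivatives -/
theorem a15_sin (c x : ℝ) : HasDerivAt (fun x => Real.sin (c * x)) (c * Real.cos (c * x)) x := by
  have := ((hasDerivAt_id x).const_mul c).sin
  simpa [mul_comm] using this

theorem a15_cos (c x : ℝ) :
    HasDerivAt (fun x => c * Real.cos (c * x)) (-c ^ 2 * Real.sin (c * x)) x := by
  have := (((hasDerivAt_id x).const_mul c).cos).const_mul c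
  simp only [id, mul_one] at this
  refine this.congr_deriv ?_
  ring

theorem a15_lap_sin (c d : ℝ) (z : ℂ) :
    Δ (fun z : ℂ => Real.sin (c * z.re) * Real.sin (d * z.im)) z =
      -(c ^ 2 + d ^ 2) * (Real.sin (c * z.re) * Real.sin (d * z.im)) := by
  rw [a15_laplacian_prod (a := fun x => Real.sin (c * x)) (b := fun x => Real.sin (d * x))
    (a15_sin c) (a15_sin d) (a15_cos c) (a15_cos d)]
  ring

theorem a15_smooth_sin (c d : ℝ) :
    ContDiff ℝ ∞ (fun z : ℂ => Real.sin (c * z.re) * Real.sin (d * z.im)) := by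
  have h1 : ContDiff ℝ ∞ (fun z : ℂ => z.re) := reCLM.contDiff
  have h2 : ContDiff ℝ ∞ (fun z : ℂ => z.im) := imCLM.contDiff
  exact (Real.contDiff_sin.comp (contDiff_const.mul h1)).mul
    (Real.contDiff_sin.comp (contDiff_const.mul h2))

theorem a15_w0_smooth : ContDiff ℝ ∞ w0 := by
  unfold w0
  exact (a15_smooth_sin Real.pi (2 * Real.pi)).sub (a15_smooth_sin (2 * Real.pi) Real.pi)

theorem a15_lap_w0 (z : ℂ) : Δ w0 z = -(5 * Real.pi ^ 2) * w0 z := by
  have e : w0 = (fun z : ℂ => Real.sin (Real.pi * z.re) * Real.sin (2 * Real.pi * z.im)) -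
      fun z : ℂ => Real.sin (2 * Real.pi * z.re) * Real.sin (Real.pi * z.im) := rfl
  have h1 : ContDiffAt ℝ 2 (fun z : ℂ => Real.sin (Real.pi * z.re) * Real.sin (2 * Real.pi * z.im)) z :=
    ((a15_smooth_sin Real.pi (2 * Real.pi)).of_le (by norm_cast)).contDiffAt
  have h2 : ContDiffAt ℝ 2 (fun z : ℂ => Real.sin (2 * Real.pi * z.re) * Real.sin (Real.pi * z.im)) z :=
    ((a15_smooth_sin (2 * Real.pi) Real.pi).of_le (by norm_cast)).contDiffAt
  rw [e, h1.laplacian_sub h2, a15_lap_sin, a15_lap_sin]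
  simp only [Pi.sub_apply]
  ring

theorem w0_weak {φ : ℂ → ℝ} (hφ : Tst DD φ) :
    ∫ z, inner ℝ (gradient w0 z) (gradient φ z) = 5 * Real.pi ^ 2 * ∫ z, w0 z * φ z := by
  have hφ' : Tst univ φ := ⟨hφ.1, hφ.2.1, subset_univ _⟩
  rw [(green isOpen_univ ((a15_w0_smooth.of_le (by norm_cast)).contDiffOn) hφ').2.2]
  simp only [a15_lap_w0]
  rw [← integral_neg, ← integral_const_mul]
  congr 1
  funext z
  ring

theorem a15_isOpen_DD : IsOpen DD := by
  have h1 : IsOpen {z : ℂ | |z.re| < 1} := isOpen_lt (continuous_re.abs) continuous_const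
  have h2 : IsOpen {z : ℂ | |z.im| < 1} := isOpen_lt (continuous_im.abs) continuous_const
  exact h1.inter h2

theorem a15_isClosed_Axs : IsClosed Axs :=
  isClosed_eq (continuous_re.mul continuous_im) continuous_const

/-- off the axes the product of sines does not vanish -/
theorem a15_ne {z : ℂ} (hz : z ∈ DD \ Axs) :
    Real.sin (Real.pi * z.re) * Real.sin (Real.pi * z.im) ≠ 0 := by
  obtain ⟨⟨h1, h2⟩, h3⟩ := hz
  have key : ∀ x : ℝ, |x| < 1 → x ≠ 0 → Real.sin (Real.pi * x) ≠ 0 := by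
    intro x hx hx0
    rw [abs_lt] at hx
    rcases lt_or_gt_of_ne hx0 with h | h
    · have : Real.sin (Real.pi * x) < 0 := by
        apply Real.sin_neg_of_neg_of_neg_pi_lt
        · nlinarith [Real.pi_pos]
        · nlinarith [Real.pi_pos]
      exact this.ne
    · have : 0 < Real.sin (Real.pi * x) := by
        apply Real.sin_pos_of_pos_of_lt_pi
        · nlinarith [Real.pi_pos]
        · nlinarith [Real.pi_pos]
      exact this.ne'
  have h4 : z.re * z.im ≠ 0 := h3
  rw [mul_ne_zero_iff] at h4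
  exact mul_ne_zero (key _ h1 h4.1) (key _ h2 h4.2)

/-- smoothness and Laplacian of `|s| g` where `s = sin sin` -/
theorem a15_abs_mul {g : ℂ → ℝ} (hg : ContDiff ℝ ∞ g) {L : ℝ}
    (hL : ∀ z, Δ (fun z : ℂ => Real.sin (Real.pi * z.re) * Real.sin (Real.pi * z.im) * g z) z =
      L * (Real.sin (Real.pi * z.re) * Real.sin (Real.pi * z.im) * g z)) :
    ContDiffOn ℝ ∞ (fun z : ℂ => |Real.sin (Real.pi * z.re) * Real.sin (Real.pi * z.im)| * g z)
      (DD \ Axs) ∧ ∀ z ∈ DD \ Axs,
      Δ (fun z : ℂ => |Real.sin (Real.pi * z.re) * Real.sin (Real.pi * z.im)| * g z) z =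
        L * (|Real.sin (Real.pi * z.re) * Real.sin (Real.pi * z.im)| * g z) := by
  set s : ℂ → ℝ := fun z => Real.sin (Real.pi * z.re) * Real.sin (Real.pi * z.im) with hs
  have hsm : ContDiff ℝ ∞ s := a15_smooth_sin Real.pi Real.pi
  have hcont : Continuous s := hsm.continuous
  have hloc : ∀ z ∈ DD \ Axs, ∃ σ : ℝ, (fun w => |s w| * g w) =ᶠ[𝓝 z] fun w => σ • (s w * g w) := by
    intro z hz
    have hne : s z ≠ 0 := a15_ne hz
    rcases lt_or_gt_of_ne hne with h | h
    · refine ⟨-1, ?_⟩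
      filter_upwards [(isOpen_lt hcont continuous_const).mem_nhds h] with w hw
      rw [abs_of_neg hw]; simp
    · refine ⟨1, ?_⟩
      filter_upwards [(isOpen_lt continuous_const hcont).mem_nhds h] with w hw
      rw [abs_of_pos hw]; simp
  constructor
  · intro z hz
    obtain ⟨σ, hσ⟩ := hloc z hz
    have h1 : ContDiffAt ℝ ∞ (fun w => σ • (s w * g w)) z := by
      exact ((hsm.mul hg).const_smul σ).contDiffAt
    exact (h1.congr_of_eventuallyEq hσ).contDiffWithinAt
  · intro z hz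
    obtain ⟨σ, hσ⟩ := hloc z hz
    rw [InnerProductSpace.laplacian_congr_nhds hσ |>.eq_of_nhds]
    have h2 : ContDiffAt ℝ 2 (fun w => s w * g w) z :=
      ((hsm.mul hg).of_le (by norm_cast)).contDiffAt
    have h3 : (fun w => σ • (s w * g w)) = σ • fun w => s w * g w := rfl
    rw [h3, InnerProductSpace.laplacian_smul σ h2, hL z]
    have h4 : |s z| * g z = σ • (s z * g z) := hσ.eq_of_nhds
    rw [h4]
    simp only [smul_eq_mul]
    ring

theorem phi0_weak {φ : ℂ → ℝ} (hφ : Tst (DD \ Axs) φ) :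
    ∫ z, inner ℝ (gradient phi0 z) (gradient φ z) = 5 * Real.pi ^ 2 * ∫ z, phi0 z * φ z := by
  set g : ℂ → ℝ := fun z => 2 * (Real.cos (Real.pi * z.re) + Real.cos (Real.pi * z.im)) with hg
  have hgs : ContDiff ℝ ∞ g := by
    have h1 : ContDiff ℝ ∞ (fun z : ℂ => z.re) := reCLM.contDiff
    have h2 : ContDiff ℝ ∞ (fun z : ℂ => z.im) := imCLM.contDiff
    exact contDiff_const.mul ((Real.contDiff_cos.comp (contDiff_const.mul h1)).add
      (Real.contDiff_cos.comp (contDiff_const.mul h2)))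
  have e0 : phi0 = fun z : ℂ => |Real.sin (Real.pi * z.re) * Real.sin (Real.pi * z.im)| * g z := by
    funext z; simp only [phi0, hg]; ring
  have e1 : (fun z : ℂ => Real.sin (Real.pi * z.re) * Real.sin (Real.pi * z.im) * g z) =
      (fun z : ℂ => Real.sin (2 * Real.pi * z.re) * Real.sin (Real.pi * z.im)) +
      fun z : ℂ => Real.sin (Real.pi * z.re) * Real.sin (2 * Real.pi * z.im) := by
    funext z
    simp only [hg, Pi.add_apply]
    rw [mul_assoc 2 Real.pi, mul_assoc 2 Real.pi, Real.sin_two_mul, Real.sin_two_mul]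
    ring
  have hL : ∀ z, Δ (fun z : ℂ => Real.sin (Real.pi * z.re) * Real.sin (Real.pi * z.im) * g z) z =
      -(5 * Real.pi ^ 2) * (Real.sin (Real.pi * z.re) * Real.sin (Real.pi * z.im) * g z) := by
    intro z
    have h1 : ContDiffAt ℝ 2 (fun z : ℂ => Real.sin (Real.pi * z.re) * Real.sin (2 * Real.pi * z.im)) z :=
      ((a15_smooth_sin Real.pi (2 * Real.pi)).of_le (by norm_cast)).contDiffAt
    have h2 : ContDiffAt ℝ 2 (fun z : ℂ => Real.sin (2 * Real.pi * z.re) * Real.sin (Real.pi * z.im)) z :=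
      ((a15_smooth_sin (2 * Real.pi) Real.pi).of_le (by norm_cast)).contDiffAt
    have e2 := congrFun e1 z
    simp only [Pi.add_apply] at e2
    rw [e1, h2.laplacian_add h1, a15_lap_sin, a15_lap_sin, e2]
    ring
  obtain ⟨hsm, hlap⟩ := a15_abs_mul hgs hL
  rw [← e0] at hsm hlap
  have hΩ : IsOpen (DD \ Axs) := a15_isOpen_DD.sdiff a15_isClosed_Axs
  rw [(green hΩ (hsm.of_le (by norm_cast)) hφ).2.2]
  have e3 : ∀ z, Δ phi0 z * φ z = -(5 * Real.pi ^ 2) * (phi0 z * φ z) := by
    intro z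
    by_cases hz : z ∈ DD \ Axs
    · rw [hlap z hz, ← congrFun e0 z]; ring
    · have : φ z = 0 := by
        by_contra hc
        exact hz (hφ.2.2 (subset_tsupport _ hc))
      rw [this]; ring
  simp only [e3]
  rw [integral_const_mul]
  ring

theorem psi11_weak {φ : ℂ → ℝ} (hφ : Tst (DD \ Axs) φ) :
    ∫ z, inner ℝ (gradient psi11 z) (gradient φ z) = 2 * Real.pi ^ 2 * ∫ z, psi11 z * φ z := by
  have hgs : ContDiff ℝ ∞ (fun _ : ℂ => (1 : ℝ)) := contDiff_const
  have e0 : psi11 = fun z : ℂ => |Real.sin (Real.pi * z.re) * Real.sin (Real.pi * z.im)| * 1 := by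
    funext z; simp only [psi11]; ring
  have hL : ∀ z, Δ (fun z : ℂ => Real.sin (Real.pi * z.re) * Real.sin (Real.pi * z.im) * (1 : ℝ)) z =
      -(2 * Real.pi ^ 2) * (Real.sin (Real.pi * z.re) * Real.sin (Real.pi * z.im) * 1) := by
    intro z
    simp only [mul_one]
    rw [a15_lap_sin]
    ring
  obtain ⟨hsm, hlap⟩ := a15_abs_mul hgs hL
  rw [← e0] at hsm hlap
  have hΩ : IsOpen (DD \ Axs) := a15_isOpen_DD.sdiff a15_isClosed_Axs
  rw [(green hΩ (hsm.of_le (by norm_cast)) hφ).2.2]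
  have e3 : ∀ z, Δ psi11 z * φ z = -(2 * Real.pi ^ 2) * (psi11 z * φ z) := by
    intro z
    by_cases hz : z ∈ DD \ Axs
    · rw [hlap z hz, ← congrFun e0 z]; ring
    · have : φ z = 0 := by
        by_contra hc
        exact hz (hφ.2.2 (subset_tsupport _ hc))
      rw [this]; ring
  simp only [e3]
  rw [integral_const_mul]
  ring

end Pool.Agent.H87.LE
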